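import Pool.Agent.H295R3.W.Stmts

/-! Task T of H295-W2 (helper744, for helper295): the odd sums. -/

set_option autoImplicit false

open Finset ArithmeticFunction

namespace Pool.Agent.H744R3.W

open Pool.Agent.H295R3.W

theorem fo_eq : fo = g * mu2 := by
  unfold g mu2
  have h : ((moebius : ArithmeticFunction ℤ) : ArithmeticFunction ℝ) *
      ((zeta : ArithmeticFunction ℕ) : ArithmeticFunction ℝ) = 1 := coe_moebius_mul_coe_zeta
  calc fo = 1 * 1 * fo := by rw [one_mul, one_mul]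
    _ = (((moebius : ArithmeticFunction ℤ) : ArithmeticFunction ℝ) *
      ((zeta : ArithmeticFunction ℕ) : ArithmeticFunction ℝ)) *
      (((moebius : ArithmeticFunction ℤ) : ArithmeticFunction ℝ) *
      ((zeta : ArithmeticFunction ℕ) : ArithmeticFunction ℝ)) * fo := by rw [h]
    _ = _ := by ring

theorem Icc_eq (N : ℕ) : Icc 1 N = Ioc 0 N := by
  ext n; simp [Nat.succ_le_iff]

theorem T_eq (u : ℝ) : T u = ∑ d ∈ Icc 1 ⌊u⌋₊, g d * ∑ n ∈ Icc 1 ⌊u / d⌋₊, mu2 n := by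
  unfold T
  rw [Finset.sum_filter]
  have h1 : ∑ n ∈ Icc 1 ⌊u⌋₊, (if n % 2 = 1 then f n else 0) = ∑ n ∈ Icc 1 ⌊u⌋₊, fo n := rfl
  rw [h1, fo_eq, Icc_eq, sum_Ioc_mul_eq_sum_sum]
  apply Finset.sum_congr rfl
  intro d _
  rw [Nat.floor_div_natCast, Icc_eq]

theorem log_ratio (V : ℕ) : ∃ K : ℝ, 0 < K ∧ ∀ d y : ℝ, 1 ≤ d → 1 ≤ y →
    (Real.log (d * y + 1)) ^ V ≤ K * d ^ (1 / 4 : ℝ) * (Real.log (y + 1)) ^ V := by
  have hl2 : 0 < Real.log 2 := Real.log_pos (by norm_num)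
  set c : ℝ := Real.log 2 / 4 with hc
  have hc0 : 0 < c := by positivity
  refine ⟨((V + 1 : ℕ) / c) ^ (V + 1) * Real.exp c, by positivity, ?_⟩
  intro d y hd hy
  have hd0 : 0 < d := by linarith
  have hly : Real.log 2 ≤ Real.log (y + 1) := Real.log_le_log (by norm_num) (by linarith)
  have hly0 : 0 < Real.log (y + 1) := by linarith
  have hld : 0 ≤ Real.log d := Real.log_nonneg hd
  set t : ℝ := Real.log d / Real.log 2 with ht
  have ht0 : 0 ≤ t := div_nonneg hld hl2.le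
  have h1 : Real.log (d * y + 1) ≤ (1 + t) * Real.log (y + 1) := by
    have h2 : Real.log (d * y + 1) ≤ Real.log (d * (y + 1)) :=
      Real.log_le_log (by positivity) (by nlinarith)
    rw [Real.log_mul hd0.ne' (by positivity)] at h2
    have h3 : Real.log d = t * Real.log 2 := by rw [ht]; field_simp
    have h4 : t * Real.log 2 ≤ t * Real.log (y + 1) := mul_le_mul_of_nonneg_left hly ht0
    linarith
  have h0 : 0 ≤ Real.log (d * y + 1) := Real.log_nonneg (by nlinarith)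
  have h5 : (Real.log (d * y + 1)) ^ V ≤ (1 + t) ^ V * (Real.log (y + 1)) ^ V := by
    rw [← mul_pow]
    exact pow_le_pow_left₀ h0 h1 V
  have h6 : (1 + t) ^ V ≤ (1 + t) ^ (V + 1) :=
    pow_le_pow_right₀ (by linarith) (Nat.le_succ V)
  have hV : (0 : ℝ) < ((V + 1 : ℕ) : ℝ) := by positivity
  have h7 : (1 + t) ^ (V + 1) ≤ ((V + 1 : ℕ) / c) ^ (V + 1) * Real.exp c * d ^ (1 / 4 : ℝ) := by
    have h8 : 1 + t ≤ ((V + 1 : ℕ) / c) * Real.exp (c * (1 + t) / (V + 1 : ℕ)) := by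
      have h9 := Real.add_one_le_exp (c * (1 + t) / (V + 1 : ℕ))
      have h10 : c * (1 + t) / (V + 1 : ℕ) ≤ Real.exp (c * (1 + t) / (V + 1 : ℕ)) := by linarith
      have h11 := mul_le_mul_of_nonneg_left h10 (by positivity : (0:ℝ) ≤ ((V + 1 : ℕ) / c))
      refine le_trans (le_of_eq ?_) h11
      field_simp
    have h12 := pow_le_pow_left₀ (by linarith) h8 (V + 1)
    refine h12.trans (le_of_eq ?_)
    rw [mul_pow, ← Real.exp_nat_mul, mul_assoc]
    congr 1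
    have h13 : ((V + 1 : ℕ) : ℝ) * (c * (1 + t) / (V + 1 : ℕ)) = c + Real.log d * (1 / 4) := by
      rw [ht, hc]
      field_simp
    rw [h13, Real.exp_add, Real.rpow_def_of_pos hd0]
  calc (Real.log (d * y + 1)) ^ V ≤ (1 + t) ^ V * (Real.log (y + 1)) ^ V := h5
    _ ≤ (((V + 1 : ℕ) / c) ^ (V + 1) * Real.exp c * d ^ (1 / 4 : ℝ)) * (Real.log (y + 1)) ^ V := by
        apply mul_le_mul_of_nonneg_right (h6.trans h7) (by positivity)
    _ = _ := by ring

theorem taskT : Pool.Agent.H295R3.W.TaskT := by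
  intro hM hG V
  obtain ⟨C, hC, hCb⟩ := hM V
  obtain ⟨K, hK, hKb⟩ := log_ratio V
  set G : ℝ := ∑' n : ℕ, |g n| / (n : ℝ) ^ (3 / 4 : ℝ) with hGdef
  have hG0 : 0 ≤ G := tsum_nonneg fun n => by positivity
  refine ⟨C * K * (G + 1), by positivity, ?_⟩
  intro u hu
  have hlu : 0 < Real.log (u + 1) := Real.log_pos (by linarith)
  have hL : 0 < (Real.log (u + 1)) ^ V := by positivity
  rw [T_eq]
  have hterm : ∀ d ∈ Icc 1 ⌊u⌋₊, |g d * ∑ n ∈ Icc 1 ⌊u / d⌋₊, mu2 n| ≤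
      (C * K * u / (Real.log (u + 1)) ^ V) * (|g d| / (d : ℝ) ^ (3 / 4 : ℝ)) := by
    intro d hd
    rw [mem_Icc] at hd
    have hd1 : (1 : ℝ) ≤ d := by exact_mod_cast hd.1
    have hd0 : (0 : ℝ) < d := by linarith
    have hdu : (d : ℝ) ≤ u := by
      have := Nat.floor_le (by linarith : 0 ≤ u)
      have h2 : (d : ℝ) ≤ (⌊u⌋₊ : ℝ) := by exact_mod_cast hd.2
      linarith
    have hy : 1 ≤ u / d := by rwa [one_le_div hd0]
    have h1 := hCb (u / d) hy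
    have h2 := hKb d (u / d) hd1 hy
    have h3 : (d : ℝ) * (u / d) = u := by field_simp
    rw [h3] at h2
    have hly : 0 < (Real.log (u / d + 1)) ^ V := by
      have : 0 < Real.log (u / d + 1) := Real.log_pos (by linarith)
      positivity
    rw [abs_mul]
    have h4 : C * (u / d) / (Real.log (u / d + 1)) ^ V ≤
        C * K * u / (Real.log (u + 1)) ^ V / (d : ℝ) ^ (3 / 4 : ℝ) := by
      have hd34 : (0 : ℝ) < (d : ℝ) ^ (3 / 4 : ℝ) := Real.rpow_pos_of_pos hd0 _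
      have hdd : (d : ℝ) = (d : ℝ) ^ (3 / 4 : ℝ) * (d : ℝ) ^ (1 / 4 : ℝ) := by
        rw [← Real.rpow_add hd0]; norm_num
      rw [div_div, div_le_div_iff₀ hly (by positivity)]
      calc C * (u / d) * ((Real.log (u + 1)) ^ V * (d : ℝ) ^ (3 / 4 : ℝ))
          ≤ C * (u / d) * ((K * (d : ℝ) ^ (1 / 4 : ℝ) * (Real.log (u / d + 1)) ^ V) *
            (d : ℝ) ^ (3 / 4 : ℝ)) := by
            gcongr
        _ = C * K * (u / d) * ((d : ℝ) ^ (3 / 4 : ℝ) * (d : ℝ) ^ (1 / 4 : ℝ)) *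
            (Real.log (u / d + 1)) ^ V := by ring
        _ = C * K * u * (Real.log (u / d + 1)) ^ V := by
            rw [← hdd]
            field_simp
    calc |g d| * |∑ n ∈ Icc 1 ⌊u / d⌋₊, mu2 n| ≤
        |g d| * (C * (u / d) / (Real.log (u / d + 1)) ^ V) := by gcongr
      _ ≤ |g d| * (C * K * u / (Real.log (u + 1)) ^ V / (d : ℝ) ^ (3 / 4 : ℝ)) := by gcongr
      _ = _ := by ring
  calc |∑ d ∈ Icc 1 ⌊u⌋₊, g d * ∑ n ∈ Icc 1 ⌊u / d⌋₊, mu2 n|
      ≤ ∑ d ∈ Icc 1 ⌊u⌋₊, |g d * ∑ n ∈ Icc 1 ⌊u / d⌋₊, mu2 n| := Finset.abs_sum_le_sum_abs _ _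
    _ ≤ ∑ d ∈ Icc 1 ⌊u⌋₊, (C * K * u / (Real.log (u + 1)) ^ V) *
        (|g d| / (d : ℝ) ^ (3 / 4 : ℝ)) := Finset.sum_le_sum hterm
    _ = (C * K * u / (Real.log (u + 1)) ^ V) * ∑ d ∈ Icc 1 ⌊u⌋₊, (|g d| / (d : ℝ) ^ (3 / 4 : ℝ)) := by
        rw [Finset.mul_sum]
    _ ≤ (C * K * u / (Real.log (u + 1)) ^ V) * G := by
        apply mul_le_mul_of_nonneg_left _ (by positivity)
        exact hG.sum_le_tsum _ (fun n _ => by positivity)
    _ ≤ (C * K * u / (Real.log (u + 1)) ^ V) * (G + 1) := by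
        apply mul_le_mul_of_nonneg_left (by linarith) (by positivity)
    _ = C * K * (G + 1) * u / (Real.log (u + 1)) ^ V := by ring

end Pool.Agent.H744R3.W
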